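import Pool.Agent.Y129.TB.Final

/-!
# The case of an algebraically closed perfectoid field
-/

namespace Pool.Agent.Y129.TB

open Pool.Agent.Y129.TA

variable {p : ℕ} [hp : Fact p.Prime] {C F : Type} [Field C] [Field F] [CharP F p]

theorem BaseField.self [IsAlgClosed F] (T : Tilting p C F) : BaseField T C F where
  perf a := IsAlgClosed.exists_pow_nat_eq a hp.out.pos
  val := by
    obtain ⟨ϖ, h⟩ := T.surj (p : C)
    exact ⟨ϖ, by rw [Algebra.algebraMap_self, RingHom.id_apply, ← T.abs_sharp, h]⟩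
  θ_mem x _ := ⟨T.θ x, rfl⟩
  θ_surj y hy := by
    obtain ⟨x, hx⟩ := T.θ_surj y hy
    exact ⟨x, fun n => ⟨_, rfl⟩, hx⟩

end Pool.Agent.Y129.TB
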