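import Pool.Agent.Y129.TB.Final

/-!
# Finite unions of images of complete intersections
-/

open MvPolynomial Pool.Agent.Y129.TA

set_option linter.unusedSectionVars false

namespace Pool.Agent.Y129.TB

variable {p : ℕ} [hp : Fact p.Prime] {C F K E : Type} [Field C] [Field F] [CharP F p] [Field K]
  [Field E] [Algebra K C] [Algebra E F]
  {α ι κ : Type} [Fintype α] [Fintype ι] [Fintype κ]

variable {h : κ → MvPolynomial α K} {f : ι → MvPolynomial α K} {e : ℕ}

theorem core [IsAlgClosed C] [IsAlgClosed F] (T : Tilting p C F) (B : BaseField T K E)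
    (hh : ∀ k, IsForm (h k)) (hf : ∀ i, (f i).IsHomogeneous e) (he : 0 < e)
    (h0 : ∀ z : α → C, (∀ k, aeval z (h k) = 0) → (∀ i, aeval z (f i) = 0) → z = 0)
    [Nonempty ι] {d : ℕ} (hd : Fintype.card κ + d < Fintype.card α)
    (q : Fin (d + 1) → MvPolynomial ι K)
    (hq0 : ∀ y ∈ imageOver C h f, (∀ j, aeval y (q j) = 0) → y = 0)
    (r : ℕ) (P : Fin r → MvPolynomial ι K) (DP : Fin r → ℕ) (hPD : ∀ k, (P k).IsHomogeneous (DP k))
    (hPX : ∀ k, ∀ x ∈ imageOver C h f, aeval x (P k) = 0) (ε : ℝ) (hε : 0 < ε) :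
    ∃ δ : ℝ, 0 < δ ∧ ∃ Y : Set (ι → F), IsConeOver E Y ∧ DimGE Y d ∧
      (∀ y ∈ Y, ∀ k, InTube T.toTiltPair (P k) (DP k) ε y) ∧
      ∀ (g : Fin (d + 1) → MvPolynomial ι E) (Dg : Fin (d + 1) → ℕ),
        (∀ j, (g j).IsHomogeneous (Dg j)) →
        (∀ j (t : ι → F), (∀ i, T.absF (t i) ≤ 1) → aeval t (g j) = 0 →
          T.absK (aeval (fun i => T.sharp (t i)) (q j)) ≤ δ) →
        ∀ y ∈ Y, (∀ j, aeval y (g j) = 0) → y = 0 := by
  classical
  -- the polynomials over `C`
  let h' : κ → MvPolynomial α C := fun k => MvPolynomial.map (algebraMap K C) (h k)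
  let f' : ι → MvPolynomial α C := fun i => MvPolynomial.map (algebraMap K C) (f i)
  let q' : Fin (d + 1) → MvPolynomial ι C := fun j => MvPolynomial.map (algebraMap K C) (q j)
  let P' : Fin r → MvPolynomial ι C := fun j => MvPolynomial.map (algebraMap K C) (P j)
  have hf' : ∀ i, (f' i).IsHomogeneous e := fun i => (hf i).map _
  have hh' : ∀ k, IsForm (h' k) := fun k => form_map (hh k)
  have himg : imageOf h' f' = imageOver C h f := imageOf_map h f
  have hq0' : ∀ y ∈ imageOf h' f', (∀ j, eval y (q' j) = 0) → y = 0 := by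
    intro y hy hy2
    rw [himg] at hy
    exact hq0 y hy fun j => by rw [← eval_map_alg]; exact hy2 j
  have hPX' : ∀ k, ∀ x ∈ imageOf h' f', eval x (P' k) = 0 := by
    intro k x hx
    rw [himg] at hx
    rw [← hPX k x hx]
    exact eval_map_alg _ _
  have h0' : ∀ z : α → C, (∀ k, eval z (h' k) = 0) → (∀ i, eval z (f' i) = 0) → z = 0 :=
    fun z hz hz' => h0 z (fun k => by rw [← eval_map_alg]; exact hz k)
      fun i => by rw [← eval_map_alg]; exact hz' i
  have hPD' : ∀ k, (P' k).IsHomogeneous (DP k) := fun k => (hPD k).map _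
  have hsys : ∀ k, MvPolynomial.map (algebraMap K C) (system h f e k) = system h' f' e k := by
    rintro (k | i)
    · simp only [system, Sum.elim_inl, map_rename, h']
    · simp only [system, Sum.elim_inr, map_sub, map_pow, map_X, map_rename, f']
  -- (i): the coordinates `y` are not all small
  have s1 : ∀ t : α ⊕ ι, ∃ δ : ℝ, 0 < δ ∧ ∀ v : α ⊕ ι → C, (∀ i, T.absK (v i) ≤ 1) →
      (∀ k, T.absK (eval v (Sum.elim (system h' f' e) (fun i => X (Sum.inr i) ^ e) k)) ≤ δ) →
      T.absK (eval v (X t)) ≤ 1 / 2 := by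
    intro t
    refine small T.ultraK _ _ (fun v hv => ?_) (by norm_num)
    have h1 := system_eq_zero he h0' (fun k => hv (Sum.inl k)) (fun i => by
      have h2 := hv (Sum.inr i)
      simpa using h2)
    rw [eval_X, h1]
    rfl
  choose δ₁ hδ₁ hs1 using s1
  obtain ⟨δa, hδa, hδa'⟩ := exists_pos_le δ₁ hδ₁
  -- (iii): the forms `q j`
  have s2 : ∀ t : α ⊕ ι, ∃ δ : ℝ, 0 < δ ∧ ∀ v : α ⊕ ι → C, (∀ i, T.absK (v i) ≤ 1) →
      (∀ k, T.absK (eval v (Sum.elim (system h' f' e) (fun j => pull α e (q' j)) k)) ≤ δ) →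
      T.absK (eval v (X t)) ≤ 1 / 2 := by
    intro t
    refine small T.ultraK _ _ (fun v hv => ?_) (by norm_num)
    have h1 : (fun i => v (Sum.inr i) ^ e) = 0 := by
      refine hq0' _ (mem_imageOf_of_system fun k => hv (Sum.inl k)) fun j => ?_
      have h2 := hv (Sum.inr j)
      rw [Sum.elim_inr, eval_pull] at h2
      exact h2
    have h2 := system_eq_zero he h0' (fun k => hv (Sum.inl k)) (fun i => congrFun h1 i)
    rw [eval_X, h2]
    rfl
  choose δ₂ hδ₂ hs2 using s2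
  obtain ⟨δb, hδb, hδb'⟩ := exists_pos_le δ₂ hδ₂
  -- (ii): the polynomials `P k`
  set c : ℝ := min δa 1 with hc
  have hc0 : 0 < c := lt_min hδa one_pos
  have s3 : ∀ k : Fin r, ∃ δ : ℝ, 0 < δ ∧ ∀ v : α ⊕ ι → C, (∀ i, T.absK (v i) ≤ 1) →
      (∀ l, T.absK (eval v (system h' f' e l)) ≤ δ) →
      T.absK (eval v (pull α e (P' k))) ≤ ε * c ^ DP k := by
    intro k
    refine small T.ultraK _ _ (fun v hv => ?_) (by positivity)
    rw [eval_pull]
    exact hPX' k _ (mem_imageOf_of_system hv)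
  choose δ₃ hδ₃ hs3 using s3
  obtain ⟨δc, hδc, hδc'⟩ := exists_pos_le δ₃ hδ₃
  set δ : ℝ := min δa (min δb δc) with hδ
  have hδ0 : 0 < δ := lt_min hδa (lt_min hδb hδc)
  -- the approximations
  have a1 : ∀ k : κ ⊕ ι, ∃ D, 0 < D ∧ ∃ g : MvPolynomial (α ⊕ ι) E, g.IsHomogeneous D ∧
      ∀ t : α ⊕ ι → F, (∀ i, T.absF (t i) ≤ 1) → aeval t g = 0 →
        T.absK (eval (fun i => T.sharp (t i)) (system h' f' e k)) ≤ δ := by
    intro k
    obtain ⟨D, hD, hD'⟩ := system_form hh hf he k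
    obtain ⟨D₂, hD₂, g, hg, hg2⟩ := approx T B hD hD' hδ0
    refine ⟨D₂, hD₂, g, hg, fun t ht ht0 => ?_⟩
    rw [← hsys, eval_map_alg]
    exact hg2 t ht ht0
  choose DG hDG G hG hGa using a1
  let u : ι → MvPolynomial (α ⊕ ι) E := fun i => X (Sum.inr i) ^ e
  have hu : ∀ i, (u i).IsHomogeneous e := fun i => isHomogeneous_X_pow _ _
  have hGf : ∀ k, IsForm (G k) := fun k => ⟨DG k, hDG k, hG k⟩
  have hue : ∀ (w : α ⊕ ι → F) i, aeval w (u i) = w (Sum.inr i) ^ e := fun w i => by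
    change aeval w (X (Sum.inr i) ^ e) = _
    rw [map_pow, aeval_X]
  have hsc : ∀ {τ : Type} [Fintype τ] {Q : MvPolynomial τ E} {D : ℕ}, Q.IsHomogeneous D →
      ∀ (a : F) (t : τ → F), aeval (fun i => a * t i) Q = a ^ D * aeval t Q := by
    intro τ _ Q D hQ a t
    rw [← eval_map_alg, ← eval_map_alg]
    exact eval_smul_of_homogeneous (hQ.map _) a t
  -- the main estimate for a normalised zero
  have key : ∀ w : α ⊕ ι → F, (∀ k, aeval w (G k) = 0) → w ≠ 0 → ∃ a : F, a ≠ 0 ∧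
      (∀ k, T.absK (eval (fun t => T.sharp (a * w t)) (system h' f' e k)) ≤ δ) ∧
      (∀ t, T.absF (a * w t) ≤ 1) ∧ (∃ t, T.absF (a * w t) = 1) ∧
      ∃ i, c < T.absF (a ^ e * w (Sum.inr i) ^ e) := by
    intro w hw hw0
    obtain ⟨a, ha, h1, t, ht⟩ := exists_normal T.toTiltPair hw0
    have h2 : ∀ k, T.absK (eval (fun t => T.sharp (a * w t)) (system h' f' e k)) ≤ δ := by
      intro k
      refine hGa k (fun t => a * w t) h1 ?_
      rw [hsc (hG k), hw k, mul_zero]
    refine ⟨a, ha, h2, h1, ⟨t, ht⟩, ?_⟩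
    by_contra hno
    push Not at hno
    have h3 := hs1 t (fun t => T.sharp (a * w t)) (fun i => by rw [T.abs_sharp]; exact h1 i) (by
      rintro (k | i)
      · exact (h2 k).trans ((min_le_left _ _).trans (hδa' t))
      · rw [Sum.elim_inr, map_pow, eval_X, ← map_pow, T.abs_sharp, mul_pow]
        exact (hno i).trans ((min_le_left _ _).trans (hδa' t)))
    rw [eval_X, T.abs_sharp, ht] at h3
    norm_num at h3
  have hG0 : ∀ w : α ⊕ ι → F, (∀ k, aeval w (G k) = 0) → (∀ i, aeval w (u i) = 0) → w = 0 := by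
    intro w hw hy
    by_contra hw0
    obtain ⟨a, _, _, _, _, i, hi⟩ := key w hw hw0
    have h1 := hy i
    rw [hue] at h1
    rw [h1, mul_zero, map_zero] at hi
    exact absurd hi (not_lt.2 hc0.le)
  refine ⟨δb, hδb, imageOver F G u, imageOver_cone hGf hu he hG0, imageOver_dimGE hGf hu he hG0 ?_,
    ?_, ?_⟩
  · rw [Fintype.card_sum, Fintype.card_sum]
    omega
  rotate_left
  · -- the upper bound for the dimension
    intro g Dg hg hga
    rintro y ⟨w, hw, hy⟩ hgy
    by_contra hy0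
    have hw0 : w ≠ 0 := by
      rintro rfl
      refine hy0 (funext fun i => ?_)
      rw [hy i, hue]
      exact zero_pow he.ne'
    obtain ⟨a, ha, h2, h1, ⟨t, ht⟩, _⟩ := key w hw hw0
    have hyi : ∀ i, a ^ e * y i = (a * w (Sum.inr i)) ^ e := fun i => by rw [hy i, hue, mul_pow]
    have h4 : ∀ j, T.absK (eval (fun i => T.sharp (a ^ e * y i)) (q' j)) ≤ δb := by
      intro j
      have h9 : eval (fun i => T.sharp (a ^ e * y i)) (q' j) =
          aeval (fun i => T.sharp (a ^ e * y i)) (q j) := eval_map_alg _ _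
      rw [h9]
      refine hga j (fun i => a ^ e * y i) (fun i => ?_) ?_
      · rw [hyi, map_pow]
        exact pow_le_one₀ (T.absF.nonneg _) (h1 _)
      · rw [hsc (hg j), hgy j, mul_zero]
    have h3 := hs2 t (fun t => T.sharp (a * w t)) (fun i => by rw [T.abs_sharp]; exact h1 i) (by
      rintro (k | j)
      · exact (h2 k).trans ((min_le_right _ _).trans ((min_le_left _ _).trans (hδb' t)))
      · rw [Sum.elim_inr, eval_pull]
        have h5 : (fun i => T.sharp (a * w (Sum.inr i)) ^ e) =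
            fun i => T.sharp (a ^ e * y i) := funext fun i => by rw [hyi, map_pow]
        rw [h5]
        exact (h4 j).trans (hδb' t))
    rw [eval_X, T.abs_sharp, ht] at h3
    norm_num at h3
  · -- the tube
    rintro y ⟨w, hw, hy⟩ k Bd hB
    have hPk : aeval (fun i => T.sharp (y i)) (P k) = eval (fun i => T.sharp (y i)) (P' k) :=
      (eval_map_alg _ _).symm
    change T.absK (aeval (fun i => T.sharp (y i)) (P k)) ≤ ε * Bd ^ DP k
    rw [hPk]
    by_cases hw0 : w = 0
    · have hy0 : y = 0 := by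
        funext i
        rw [hy i, hue, hw0]
        exact zero_pow he.ne'
      have h1 : (fun i => T.sharp (y i)) = (0 : ι → C) := by
        funext i
        rw [hy0]
        exact T.sharp_zero
      have h2 : eval (0 : ι → C) (P' k) = 0 := by
        refine hPX' k 0 ⟨0, fun j => form_zero (hh' j), fun i => ?_⟩
        exact (form_zero ⟨e, he, hf' i⟩).symm
      have hB0 : 0 ≤ Bd := (T.absF.nonneg _).trans (hB (Classical.arbitrary ι))
      rw [h1, h2, map_zero]
      positivity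
    · obtain ⟨a, ha, h2, h1, _, i, hi⟩ := key w hw hw0
      have hyi : ∀ i, a ^ e * y i = (a * w (Sum.inr i)) ^ e := fun i => by rw [hy i, hue, mul_pow]
      have h3 := hs3 k (fun t => T.sharp (a * w t)) (fun i => by rw [T.abs_sharp]; exact h1 i)
        (fun l => (h2 l).trans ((min_le_right _ _).trans ((min_le_right _ _).trans (hδc' k))))
      rw [eval_pull] at h3
      have h5 : (fun i => T.sharp (a * w (Sum.inr i)) ^ e) =
          fun i => T.sharp (a ^ e) * T.sharp (y i) :=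
        funext fun i => by rw [← map_pow, ← hyi, map_mul]
      rw [h5, eval_smul_of_homogeneous (hPD' k), map_mul, map_pow, T.abs_sharp] at h3
      have hA : 0 < T.absF (a ^ e) := T.absF.pos (pow_ne_zero e ha)
      have h6 : c ≤ T.absF (a ^ e) * Bd := by
        refine hi.le.trans ?_
        rw [map_mul, ← hue, ← hy i]
        exact mul_le_mul_of_nonneg_left (hB i) hA.le
      have h7 : T.absF (a ^ e) ^ DP k * T.absK (eval (fun i => T.sharp (y i)) (P' k)) ≤
          T.absF (a ^ e) ^ DP k * (ε * Bd ^ DP k) := by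
        refine h3.trans ?_
        calc ε * c ^ DP k ≤ ε * (T.absF (a ^ e) * Bd) ^ DP k :=
              mul_le_mul_of_nonneg_left (pow_le_pow_left₀ hc0.le h6 _) hε.le
          _ = T.absF (a ^ e) ^ DP k * (ε * Bd ^ DP k) := by rw [mul_pow]; ring
      exact le_of_mul_le_mul_left h7 (pow_pos hA _)


section Union

theorem mem_zeroLocus_prod {N : ℕ} (J : Fin N → Ideal (MvPolynomial ι E)) (y : ι → F) :
    y ∈ zeroLocus F (∏ i, J i) ↔ ∃ i, y ∈ zeroLocus F (J i) := by
  constructor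
  · intro hy
    by_contra hno
    push Not at hno
    have h1 : ∀ i, ∃ P ∈ J i, aeval y P ≠ 0 := by
      intro i
      by_contra h2
      push Not at h2
      exact hno i (mem_zeroLocus_iff.2 h2)
    choose P hP hP0 using h1
    have h2 := (mem_zeroLocus_iff.1 hy) (∏ i, P i) (Ideal.prod_mem_prod fun i _ => hP i)
    rw [map_prod] at h2
    exact Finset.prod_ne_zero_iff.2 (fun i _ => hP0 i) h2
  · rintro ⟨i, hi⟩
    rw [mem_zeroLocus_iff]
    intro P hP
    exact (mem_zeroLocus_iff.1 hi) P ((Ideal.prod_le_inf.trans (Finset.inf_le (Finset.mem_univ i))) hP)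

theorem cone_iUnion {N : ℕ} (Y : Fin N → Set (ι → F)) (hY : ∀ i, IsConeOver E (Y i)) :
    IsConeOver E (⋃ i, Y i) := by
  constructor
  · choose J hJ using fun i => (hY i).1
    refine ⟨∏ i, J i, ?_⟩
    ext y
    rw [mem_zeroLocus_prod, Set.mem_iUnion]
    exact exists_congr fun i => by rw [hJ i]
  · intro a y hy
    obtain ⟨i, hi⟩ := Set.mem_iUnion.1 hy
    exact Set.mem_iUnion.2 ⟨i, (hY i).2 a y hi⟩

theorem dimGE_iUnion {N : ℕ} (i : Fin N) (Y : Fin N → Set (ι → F)) {d : ℕ} (hY : DimGE (Y i) d) :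
    DimGE (⋃ i, Y i) d := by
  intro q hq
  obtain ⟨y, hy, h1, h2⟩ := hY q hq
  exact ⟨y, Set.mem_iUnion.2 ⟨i, hy⟩, h1, h2⟩

theorem approximable_iUnion [IsAlgClosed C] [IsAlgClosed F] (T : Tilting p C F)
    (B : BaseField T K E) [Nonempty ι] {N : ℕ} (hN : 0 < N) {d : ℕ} {c m e : Fin N → ℕ}
    (h : ∀ i, Fin (c i) → MvPolynomial (Fin (m i + 1)) K) (hh : ∀ i j, IsForm (h i j))
    (f : ∀ i, ι → MvPolynomial (Fin (m i + 1)) K) (he : ∀ i, 0 < e i)
    (hf : ∀ i j, (f i j).IsHomogeneous (e i)) (h0 : ∀ i, NoCommonZero C (h i) (f i))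
    (hm : ∀ i, m i = d + c i) (hX : DimLEOver K (⋃ i, imageOver C (h i) (f i)) d) :
    Approximable T.toTiltPair K E (⋃ i, imageOver C (h i) (f i)) d := by
  classical
  intro r P DP hPD hPX ε hε
  obtain ⟨q, hq, hq0⟩ := hX
  have hc : ∀ i, Fintype.card (Fin (c i)) + d < Fintype.card (Fin (m i + 1)) := fun i => by
    rw [Fintype.card_fin, Fintype.card_fin, hm i]
    omega
  choose δ hδ Y hY1 hY2 hY3 hY4 using fun i => core T B (hh i) (hf i) (he i) (h0 i) (hc i) q
    (fun y hy => hq0 y (Set.mem_iUnion.2 ⟨i, hy⟩)) r P DP hPD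
    (fun k x hx => hPX k x (Set.mem_iUnion.2 ⟨i, hx⟩)) ε hε
  obtain ⟨δ', hδ', hδ''⟩ := exists_pos_le δ hδ
  have a2 : ∀ j : Fin (d + 1), ∃ D, 0 < D ∧ ∃ g : MvPolynomial ι E, g.IsHomogeneous D ∧
      ∀ t : ι → F, (∀ i, T.absF (t i) ≤ 1) → aeval t g = 0 →
        T.absK (aeval (fun i => T.sharp (t i)) (q j)) ≤ δ' := by
    intro j
    obtain ⟨D, hD, hD'⟩ := hq j
    exact approx T B hD hD' hδ'
  choose Dg hDg g hg hga using a2
  refine ⟨⋃ i, Y i, cone_iUnion Y hY1, dimGE_iUnion ⟨0, hN⟩ Y (hY2 _), ?_, ?_⟩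
  · refine ⟨fun j => MvPolynomial.map (algebraMap E F) (g j),
      fun j => form_map ⟨Dg j, hDg j, hg j⟩, ?_⟩
    intro y hy hgy
    obtain ⟨i, hi⟩ := Set.mem_iUnion.1 hy
    exact hY4 i g Dg hg (fun j t ht ht0 => (hga j t ht ht0).trans (hδ'' i)) y hi fun j => by
      rw [← eval_map_alg]
      exact hgy j
  · intro y hy k
    obtain ⟨i, hi⟩ := Set.mem_iUnion.1 hy
    exact hY3 i y hi k

end Union

end Pool.Agent.Y129.TB
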